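import Pool.Agent.H4.SC.Can

set_option autoImplicit false

/-!
# Kösters' shifted moments: both signs contribute, and moments of odd order show cancellation

For real `α` and `T > 1` put `a = α / log T`. On the critical line the integrand
`ζ(1/2 + ia + it)^k ζ(1/2 + ia - it)^k` of `Q_k(α, T)` is `(Z(t + a) Z(t - a))^k`, `Z` Hardy's function, times a phase which
is `e^(-ikα) + O(k/log T)` for `t` of size `T`. For even `k` there is no cancellation; for odd `k` the sign of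
`Z(t + a) Z(t - a)` matters.

Unconditionally: for `0 < |α| < 2π` the set where `Z(t + a) Z(t - a) < 0`, and for `0 < |α| < π` also the set where
`Z(t + a) Z(t - a) > 0`, carries a moment of the full order of magnitude `T (log T)^(p^2)`, for every real `p`. Hence for odd `k`
and `0 < |α| < π` the modulus of `Q_k(α, T)` is smaller than the normalised integral `A_k(α, T)` of the modulus of the
integrand by at least a positive constant, and for `0 < |α| < 2π` the same holds for the real part of `e^(ikα) Q_k(α, T)`.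
-/

open Filter Topology MeasureTheory Complex

namespace Pool.Agent.Results.MP_069854_nt.CancellationForOddOrders

open Pool.Agent.Q32.Idx (Z)
open Pool.Agent.H4.SC
open Pool.Agent.Q97.UM (zt)

/-- the shifted moment `Q_k(α, T)` of the problem -/
noncomputable def Q (k : ℕ) (α T : ℝ) : ℂ :=
  (T : ℂ)⁻¹ * ((Real.log T : ℂ) ^ (k ^ 2))⁻¹ *
    ∫ t in (0 : ℝ)..T, riemannZeta (1 / 2 + I * α / Real.log T + I * t) ^ k *
      riemannZeta (1 / 2 + I * α / Real.log T - I * t) ^ k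

/-- the normalised integral of the modulus of the integrand of `Q_k(α, T)` -/
noncomputable def A (k : ℕ) (α T : ℝ) : ℝ :=
  T⁻¹ * (Real.log T ^ (k ^ 2))⁻¹ *
    ∫ t in (0 : ℝ)..T, ‖riemannZeta (1 / 2 + I * α / Real.log T + I * t) ^ k *
      riemannZeta (1 / 2 + I * α / Real.log T - I * t) ^ k‖

/-- the integral of `|Z(t + a) Z(t - a)| ^ p`, `a = α / log T`, over the `t` in `[0, T]` with `σ Z(t + a) Z(t - a) > 0` -/
noncomputable def part (σ p α T : ℝ) : ENNReal :=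
  ∫⁻ t in {t : ℝ | 0 ≤ t ∧ t ≤ T ∧ 0 < σ * (Z (t + α / Real.log T) * Z (t - α / Real.log T))},
    ENNReal.ofReal (|Z (t + α / Real.log T) * Z (t - α / Real.log T)| ^ p)

lemma part_neg (σ p α T : ℝ) : part σ p (-α) T = part σ p α T := by
  have e : ∀ t : ℝ, Z (t + -α / Real.log T) * Z (t - -α / Real.log T) = Z (t + α / Real.log T) * Z (t - α / Real.log T) := by
    intro t
    have e1 : t + -α / Real.log T = t - α / Real.log T := by ring
    have e2 : t - -α / Real.log T = t + α / Real.log T := by ring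
    rw [e1, e2, mul_comm]
  unfold part
  simp only [e]

lemma integrand (k : ℕ) (α T t : ℝ) : riemannZeta (1 / 2 + I * α / Real.log T + I * t) ^ k *
    riemannZeta (1 / 2 + I * α / Real.log T - I * t) ^ k = Fk k (α / Real.log T) t := by
  unfold Fk zt
  have e1 : (1 / 2 + I * α / Real.log T + I * t : ℂ) = 1 / 2 + ((t + α / Real.log T : ℝ) : ℂ) * I := by
    push_cast
    ring
  have e2 : (1 / 2 + I * α / Real.log T - I * t : ℂ) = (starRingEnd ℂ) (1 / 2 + ((t - α / Real.log T : ℝ) : ℂ) * I) := by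
    apply Complex.ext
    · simp
    · simp
  rw [e1, e2, riemannZeta_conj, mul_pow]

lemma Fk_neg (k : ℕ) (a t : ℝ) : Fk k (-a) t = (starRingEnd ℂ) (Fk k a t) := by
  unfold Fk
  rw [map_pow, map_mul, Complex.conj_conj, sub_neg_eq_add, ← sub_eq_add_neg, mul_comm]

lemma Q_eq (k : ℕ) (α T : ℝ) : Q k α T = (T : ℂ)⁻¹ * ((Real.log T : ℂ) ^ (k ^ 2))⁻¹ * ∫ t in (0 : ℝ)..T, Fk k (α / Real.log T) t := by
  unfold Q
  simp only [integrand]

lemma A_eq (k : ℕ) (α T : ℝ) : A k α T = T⁻¹ * (Real.log T ^ (k ^ 2))⁻¹ * ∫ t in (0 : ℝ)..T, ‖Fk k (α / Real.log T) t‖ := by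
  unfold A
  simp only [integrand]

lemma int_neg (k : ℕ) (a T : ℝ) : ∫ t in (0 : ℝ)..T, Fk k (-a) t = (starRingEnd ℂ) (∫ t in (0 : ℝ)..T, Fk k a t) := by
  simp only [Fk_neg]
  exact intervalIntegral.intervalIntegral_conj

lemma Q_neg (k : ℕ) (α T : ℝ) : Q k (-α) T = (starRingEnd ℂ) (Q k α T) := by
  rw [Q_eq, Q_eq, neg_div, int_neg]
  simp

lemma A_neg (k : ℕ) (α T : ℝ) : A k (-α) T = A k α T := by
  rw [A_eq, A_eq, neg_div]
  simp only [Fk_neg, Complex.norm_conj]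

lemma part_pos {q α : ℝ} (hq : q = 1 ∨ q = 2) (h0 : 0 < α) (h1 : α < q * Real.pi) (p : ℝ) : ∃ c : ℝ, 0 < c ∧ ∀ᶠ T : ℝ in atTop,
    ∀ σ : ℝ, (σ = 1 ∨ σ = -1) → (q = 1 ∨ σ = -1) → ENNReal.ofReal (c * T * Real.log T ^ (p ^ 2)) ≤ part σ p α T := by
  obtain ⟨c, hc, h⟩ := mom hq h0 h1 p
  refine ⟨c, hc, ?_⟩
  filter_upwards [h, eventually_ge_atTop (0 : ℝ)] with T h hT σ hσ hqσ
  refine (h σ hσ hqσ).trans ?_
  unfold part
  exact lintegral_mono_set fun t ht => ⟨by linarith [ht.1], ht.2.1, ht.2.2⟩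

lemma odd_pos {q α : ℝ} (hq : q = 1 ∨ q = 2) (h0 : 0 < α) (h1 : α < q * Real.pi) {k : ℕ} (hk : Odd k) : ∃ c : ℝ, 0 < c ∧ ∀ᶠ T : ℝ in atTop,
    (q = 1 → ‖Q k α T‖ ≤ A k α T - c) ∧ (cexp (I * (k * α)) * Q k α T).re ≤ A k α T - c := by
  obtain ⟨c, hc, h⟩ := canc hq h0 h1 hk
  refine ⟨c, hc, ?_⟩
  filter_upwards [h, eventually_gt_atTop (1 : ℝ)] with T h hT
  have hT0 : 0 < T := by linarith
  have hL0 : 0 < Real.log T := Real.log_pos hT
  obtain ⟨B, hB⟩ : ∃ B : ℝ, B = T⁻¹ * (Real.log T ^ (k ^ 2))⁻¹ := ⟨_, rfl⟩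
  have hB0 : 0 < B := by rw [hB]; positivity
  have hBc : (T : ℂ)⁻¹ * ((Real.log T : ℂ) ^ (k ^ 2))⁻¹ = (B : ℂ) := by
    rw [hB]
    push_cast
    rfl
  have hBm : B * (c * T * Real.log T ^ (k ^ 2)) = c := by
    rw [hB]
    field_simp
  rw [Q_eq, A_eq, hBc, ← hB]
  refine ⟨fun hq1 => ?_, ?_⟩
  · rw [norm_mul, Complex.norm_real, Real.norm_eq_abs, abs_of_pos hB0]
    have h2 := mul_le_mul_of_nonneg_left (h.1 hq1) hB0.le
    rw [mul_sub, hBm] at h2
    exact h2
  · have h2 := mul_le_mul_of_nonneg_left h.2 hB0.le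
    rw [mul_sub, hBm] at h2
    refine le_trans (le_of_eq ?_) h2
    rw [mul_left_comm, Complex.re_ofReal_mul]

/-- **Both signs contribute, and moments of odd order show cancellation.** Let `a = α / log T`.
(1) For `0 < |α| < π` and every real `p` the integral of `|Z(t + a) Z(t - a)|^p` over the `t ∈ [0, T]` with
`Z(t + a) Z(t - a) > 0` is at least `c T (log T)^(p^2)`, `c > 0`, for large `T`.
(2) For `0 < |α| < 2π` and every real `p` the same holds for the `t ∈ [0, T]` with `Z(t + a) Z(t - a) < 0`.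
(3) For odd `k` and `0 < |α| < π` there is `c > 0` with `|Q_k(α, T)| ≤ A_k(α, T) - c` for large `T`.
(4) For odd `k` and `0 < |α| < 2π` there is `c > 0` with `Re (e^(ikα) Q_k(α, T)) ≤ A_k(α, T) - c` for large `T`. -/
theorem result :
    (∀ α p : ℝ, 0 < |α| → |α| < Real.pi → ∃ c : ℝ, 0 < c ∧ ∀ᶠ T : ℝ in atTop,
      ENNReal.ofReal (c * T * Real.log T ^ (p ^ 2)) ≤ part 1 p α T) ∧
    (∀ α p : ℝ, 0 < |α| → |α| < 2 * Real.pi → ∃ c : ℝ, 0 < c ∧ ∀ᶠ T : ℝ in atTop,
      ENNReal.ofReal (c * T * Real.log T ^ (p ^ 2)) ≤ part (-1) p α T) ∧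
    (∀ (k : ℕ) (α : ℝ), Odd k → 0 < |α| → |α| < Real.pi → ∃ c : ℝ, 0 < c ∧ ∀ᶠ T : ℝ in atTop,
      ‖Q k α T‖ ≤ A k α T - c) ∧
    (∀ (k : ℕ) (α : ℝ), Odd k → 0 < |α| → |α| < 2 * Real.pi → ∃ c : ℝ, 0 < c ∧ ∀ᶠ T : ℝ in atTop,
      (cexp (I * (k * α)) * Q k α T).re ≤ A k α T - c) := by
  refine ⟨fun α p h0 h1 => ?_, fun α p h0 h1 => ?_, fun k α hk h0 h1 => ?_, fun k α hk h0 h1 => ?_⟩
  · obtain ⟨c, hc, h⟩ := part_pos (q := 1) (Or.inl rfl) h0 (by rwa [one_mul]) p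
    refine ⟨c, hc, ?_⟩
    filter_upwards [h] with T h
    have h2 := h 1 (Or.inl rfl) (Or.inl rfl)
    rcases abs_choice α with e | e
    · rwa [e] at h2
    · rwa [e, part_neg] at h2
  · obtain ⟨c, hc, h⟩ := part_pos (q := 2) (Or.inr rfl) h0 h1 p
    refine ⟨c, hc, ?_⟩
    filter_upwards [h] with T h
    have h2 := h (-1) (Or.inr rfl) (Or.inr rfl)
    rcases abs_choice α with e | e
    · rwa [e] at h2
    · rwa [e, part_neg] at h2
  · obtain ⟨c, hc, h⟩ := odd_pos (q := 1) (Or.inl rfl) h0 (by rwa [one_mul]) hk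
    refine ⟨c, hc, ?_⟩
    filter_upwards [h] with T h
    have h2 := h.1 rfl
    rcases abs_choice α with e | e
    · rwa [e] at h2
    · rwa [e, A_neg, Q_neg, Complex.norm_conj] at h2
  · obtain ⟨c, hc, h⟩ := odd_pos (q := 2) (Or.inr rfl) h0 h1 hk
    refine ⟨c, hc, ?_⟩
    filter_upwards [h] with T h
    have h2 := h.2
    rcases abs_choice α with e | e
    · rwa [e] at h2
    · rw [e, A_neg, Q_neg] at h2
      refine le_trans (le_of_eq ?_) h2
      rw [← Complex.conj_re (cexp (I * (k * α)) * Q k α T), map_mul, ← Complex.exp_conj]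
      congr 3
      simp

end Pool.Agent.Results.MP_069854_nt.CancellationForOddOrders
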