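import Pool.Agent.H4.MZ.Fin
import Pool.Agent.H4.MZ.Arg
import Pool.Agent.H4.SC.Lbt

set_option autoImplicit false

/-!
# The quotient of the two shifted values in `Q_k(α, T)`: the mesoscopic Gaussian law relative to every Dirichlet polynomial

No hypothesis is made.  Put `a = α / log T`.  We prove that the quotient of the two values `ζ(1/2 + i(t+a))`, `ζ(1/2 + i(t-a))` of
which the integrand of `Q_k(α, T)` is made is complex log-normal, as `α → ∞` after `T → ∞`, relative to EVERY Dirichlet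
polynomial `B`:

0. for `t ∈ [T, 2T]` the integrand is `|ζ(1/2 + i(t+a)) ζ(1/2 + i(t-a))|^k e^(ikA)` with `A = π N(t-a, t+a) - α`, up to a relative
error `O(1 / log T)`; here `N(t-a, t+a)` is the number of the zeros of zeta with ordinate in `(t-a, t+a]`, on or off the critical line.
1. `(log |ζ(1/2+i(t+a)) / ζ(1/2+i(t-a))|, π N(t-a, t+a) - α) / √(log α)` is close to a pair of independent standard normal
variables under the measure `|B(t)|² dt` on `[T, 2T]`, uniformly for ALL `B(t) = ∑_{n ≤ M} b_n n^(-1/2-it)`, `M ≤ T^θ`.  (The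
variance `(1/π²) log α` of `N` is the one of the eigenvalues of a unitary matrix.)
2. So the set of the `t` at which the pair lies in a given box carries, for every `γ` and every real `p`, a lower bound of the
expected order `T (log T)^(p²)` for the moment of order `p` of `ζ(1/2+i(t+γ/log T)) ζ(1/2+i(t-γ/log T))`.
-/

open Filter Topology MeasureTheory Complex ProbabilityTheory Set

namespace Pool.Agent.Results.MP_069854_nt.MesoscopicLaw

noncomputable section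

/-- the Dirichlet polynomial with the coefficients `b` and length `M` -/
def D (M : ℕ) (b : ℕ → ℂ) (t : ℝ) : ℂ := ∑ n ∈ Finset.Icc 1 M, b n * (n : ℂ) ^ (-(1 / 2 + t * I))

/-- the number of the nontrivial zeros of zeta with ordinate in `(a, b]`, with multiplicity -/
def count (a b : ℝ) : ℕ := ∑ᶠ s ∈ {s : ℂ | (riemannZeta s = 0 ∧ 0 < s.re ∧ s.re < 1) ∧ a < s.im ∧ s.im ≤ b}, analyticOrderNatAt riemannZeta s

/-- the integrand of `Q_k(α, T)` -/
def integrand (k : ℕ) (α T t : ℝ) : ℂ :=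
  riemannZeta (1 / 2 + I * α / Real.log T + I * t) ^ k * riemannZeta (1 / 2 + I * α / Real.log T - I * t) ^ k

/-- the product of the moduli of the two shifted values -/
def modulus (α T t : ℝ) : ℝ :=
  ‖riemannZeta (1 / 2 + ((t + α / Real.log T : ℝ) : ℂ) * I)‖ * ‖riemannZeta (1 / 2 + ((t - α / Real.log T : ℝ) : ℂ) * I)‖

/-- the logarithm of the quotient of the moduli of the two values, divided by `√(log α)` -/
def ratio (α T t : ℝ) : ℝ :=
  (Real.log ‖riemannZeta (1 / 2 + ((t + α / Real.log T : ℝ) : ℂ) * I)‖ -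
    Real.log ‖riemannZeta (1 / 2 + ((t - α / Real.log T : ℝ) : ℂ) * I)‖) / Real.sqrt (Real.log α)

/-- `π` times the number of zeros between the two points minus its mean `α`, divided by `√(log α)` -/
def excess (α T t : ℝ) : ℝ :=
  (Real.pi * (count (t - α / Real.log T) (t + α / Real.log T) : ℝ) - α) / Real.sqrt (Real.log α)

/-- the `t ∈ [T, 2T]` at which the pair lies in the box `J × J'` -/
def event (J J' : Set ℝ) (α T : ℝ) : Set ℝ := {t ∈ Set.Icc T (2 * T) | ratio α T t ∈ J ∧ excess α T t ∈ J'}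

/-- the standard normal law -/
def Phi (J : Set ℝ) : ℝ := (gaussianReal 0 1).real J

open Pool.Agent.H4.MZ
open Pool.Agent.H4.SC (lbt)
open Pool.Agent.H4.LG (st st_eq)
open Pool.Agent.Q97.UM (dp N2 mz zt ap mv_rel)

lemma D_dp (M : ℕ) (b : ℕ → ℂ) (t : ℝ) : D M b t = dp M b t := rfl

lemma Phi_pos {B : Set ℝ} (hB : B.OrdConnected) (hn : B.Nontrivial) : 0 < Phi B := by
  obtain ⟨u, hu, v, hv, huv⟩ := hn
  wlog h : u < v generalizing u v
  · exact this v hv u hu huv.symm (lt_of_le_of_ne (not_lt.1 h) huv.symm)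
  have hsub : Set.Ioo u v ⊆ B := Set.Ioo_subset_Icc_self.trans (hB.out hu hv)
  have h1 : 0 < Phi (Set.Ioo u v) := by
    unfold Phi
    rw [Measure.real, ENNReal.toReal_pos_iff]
    refine ⟨?_, measure_lt_top _ _⟩
    have h0 : (1 : NNReal) ≠ 0 := one_ne_zero
    have hac := gaussianReal_absolutelyContinuous' (μ := (0 : ℝ)) h0
    rw [pos_iff_ne_zero]
    intro h2
    have h3 := hac h2
    rw [Real.volume_Ioo, ENNReal.ofReal_eq_zero] at h3
    linarith
  exact h1.trans_le (measureReal_mono hsub)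

/-- the count is a statistic -/
lemma count_st {s L a : ℝ} (hs : 1 ≤ s) (hL : 0 < L) : (count s (s + a / L) : ℝ) = st (wd a) L s := by
  have hmem : ∀ w : ℂ, w ∈ H370.Zf riemannZeta s (s + a / L) ↔
      w ∈ {w : ℂ | (riemannZeta w = 0 ∧ 0 < w.re ∧ w.re < 1) ∧ s < w.im ∧ w.im ≤ s + a / L} := by
    intro w
    rw [H370.mem_Zf H370.good_zeta hs]
    exact ⟨fun h => ⟨⟨h.2.2.2.2, h.1, h.2.1⟩, h.2.2.1, h.2.2.2.1⟩, fun h => ⟨h.1.2.1, h.1.2.2, h.2.1, h.2.2, h.1.1⟩⟩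
  have hwin : ∀ w : ℂ, L * (w.im - s) ∈ Set.Ioc 0 a ↔ (s < w.im ∧ w.im ≤ s + a / L) := by
    intro w
    have e : L * (s + a / L - s) = a := by field_simp; ring
    constructor
    · rintro ⟨h1, h2⟩
      have h3 : 0 < w.im - s := (mul_pos_iff_of_pos_left hL).1 h1
      have h2' : L * (w.im - s) ≤ L * (s + a / L - s) := by rw [e]; exact h2
      have h4 := le_of_mul_le_mul_left h2' hL
      exact ⟨by linarith, by linarith⟩
    · rintro ⟨h1, h2⟩
      refine ⟨mul_pos hL (by linarith), ?_⟩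
      have h3 : L * (w.im - s) ≤ L * (s + a / L - s) := mul_le_mul_of_nonneg_left (by linarith) hL.le
      rwa [e] at h3
  have h1 : count s (s + a / L) = ∑ w ∈ H370.Zf riemannZeta s (s + a / L), analyticOrderNatAt riemannZeta w := by
    unfold count
    refine finsum_mem_eq_sum_of_inter_support_eq _ ?_
    congr 1
    ext w
    rw [Finset.mem_coe]
    exact (hmem w).symm
  have h2 : st (wd a) L s =
      ∑ w ∈ H370.Zf riemannZeta s (s + a / L), (analyticOrderNatAt riemannZeta w : ℝ) * wd a (L * (w.im - s)) := by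
    unfold st
    refine finsum_mem_eq_sum_of_inter_support_eq _ ?_
    ext w
    simp only [Set.mem_inter_iff, Function.mem_support, Finset.mem_coe, hmem]
    constructor
    · rintro ⟨h1, h2⟩
      refine ⟨⟨h1, (hwin w).1 ?_⟩, h2⟩
      by_contra hcon
      refine h2 ?_
      unfold wd
      rw [Set.indicator_of_notMem hcon, mul_zero]
    · rintro ⟨h1, h2⟩
      exact ⟨h1.1, h2⟩
  rw [h1, h2, Nat.cast_sum]
  refine Finset.sum_congr rfl fun w hw => ?_
  unfold wd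
  rw [Set.indicator_of_mem ((hwin w).2 ((hmem w).1 hw).2), mul_one]

lemma count_Cn {α T t : ℝ} (hT : 16 ≤ T) (hα : 0 ≤ α) (hL : 2 * α + 1 ≤ Real.log T) (h1 : T ≤ t) (h2 : t ≤ 2 * T) :
    (count (t - α / Real.log T) (t + α / Real.log T) : ℝ) = Cn α T t := by
  have hL0 : 0 < Real.log T := Real.log_pos (by linarith)
  have ha : α / Real.log T ≤ 1 := by rw [div_le_one hL0]; linarith
  have ha0 : 0 ≤ α / Real.log T := by positivity
  have e : t + α / Real.log T = (t - α / Real.log T) + 2 * α / Real.log T := by ring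
  rw [e, count_st (by linarith) hL0]
  exact st_eq (V := 2 * α + 1) (Q := 1) wd_pf (by linarith : (1 : ℝ) ≤ T / 2) hL0 hL (by linarith) (by linarith)

/-- the event in terms of the finite sums -/
lemma event_eq (J J' : Set ℝ) {α T : ℝ} (hT : 16 ≤ T) (hα : 0 ≤ α) (hL : 2 * α + 1 ≤ Real.log T) :
    event J J' α T = Set.Icc T (2 * T) ∩ {t | Rr α T t ∈ J ∧ Ri α T t ∈ J'} := by
  ext t
  simp only [event, Set.mem_ofPred_eq, Set.mem_inter_iff]
  refine and_congr_right fun h => ?_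
  unfold excess Ri
  rw [count_Cn hT hα hL h.1 h.2]
  exact Iff.rfl

lemma event_meas {J J' : Set ℝ} (hJ : J.OrdConnected) (hJ' : J'.OrdConnected) {α T : ℝ} (hT : 16 ≤ T) (hα : 0 ≤ α) (hL : 2 * α + 1 ≤ Real.log T) :
    MeasurableSet (event J J' α T) := by
  rw [event_eq J J' hT hα hL]
  exact measurableSet_Icc.inter ((Rr_meas α T hJ.measurableSet).inter (Ri_meas α T hJ'.measurableSet))

/-- the law, with the sum of the squares -/
lemma law1 {J J' : Set ℝ} (hJ : J.OrdConnected) (hJ' : J'.OrdConnected) {ε : ℝ} (hε : 0 < ε) : ∃ A₀ : ℝ, 4 ≤ A₀ ∧ ∀ α : ℝ, A₀ ≤ α →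
    ∃ θ : ℝ, 0 < θ ∧ θ ≤ 1 / 40 ∧ ∀ᶠ T : ℝ in atTop, ∀ (M : ℕ) (b : ℕ → ℂ), (M : ℝ) ≤ T ^ θ →
      |(∫ t in event J J' α T, ‖D M b t‖ ^ 2) - Phi J * Phi J' * (T * N2 M b)| ≤ ε * (T * N2 M b) := by
  obtain ⟨A₀, hA₀, h⟩ := lawF J J' hJ hJ' ε hε
  refine ⟨A₀, hA₀, fun α hα => ?_⟩
  obtain ⟨θ, hθ0, hθ1, h⟩ := h α hα
  refine ⟨θ, hθ0, hθ1, ?_⟩
  filter_upwards [h, eventually_ge_atTop (16 : ℝ), Real.tendsto_log_atTop.eventually_ge_atTop (2 * α + 1)] with T h hT hL M b hM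
  rw [event_eq J J' hT (by linarith) hL]
  exact h M hM b

/-- the integral over a set as an integral with an indicator function -/
lemma int_ind {T : ℝ} (hT : 0 ≤ T) {S : Set ℝ} (hS : MeasurableSet S) (hST : S ⊆ Set.Icc T (2 * T)) (f : ℝ → ℝ) :
    ∫ t in T..(2 * T), S.indicator (fun _ => (1 : ℝ)) t * f t = ∫ t in S, f t := by
  have e : (fun t => S.indicator (fun _ => (1 : ℝ)) t * f t) = S.indicator f := by
    funext t
    by_cases h : t ∈ S
    · rw [Set.indicator_of_mem h, Set.indicator_of_mem h, one_mul]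
    · rw [Set.indicator_of_notMem h, Set.indicator_of_notMem h, zero_mul]
  rw [e, intervalIntegral.integral_of_le (by linarith), ← integral_Icc_eq_integral_Ioc, setIntegral_indicator hS,
    Set.inter_eq_self_of_subset_right hST]

/-- the prime sum of the two shifts -/
lemma two_shift {δ : ℝ} (hδ : 0 < δ) (hδ1 : δ ≤ 1) (γ β : ℝ) : ∃ C : ℝ, ∀ᶠ T : ℝ in atTop,
    4 * β ^ 2 * Real.log (Real.log T) - C ≤ ∑ p ∈ (Finset.Icc 1 ⌊T ^ δ⌋₊).filter Nat.Prime,
      ‖∑ j : Fin 2, (((fun _ => β) j : ℝ) : ℂ) * (p : ℂ) ^ (-((((![γ / Real.log T, -(γ / Real.log T)] : Fin 2 → ℝ) j : ℝ) : ℂ) * I))‖ ^ 2 / (p : ℝ) := by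
  obtain ⟨C₁, hC₁, hP⟩ := Pool.Agent.Q98.UM.prime_lower Pool.Agent.Q149.UM.t_MZ hδ hδ1
  obtain ⟨C₂, hC₂, hM⟩ := t_PSM
  refine ⟨4 * β ^ 2 * C₁ + β ^ 2 * (4 * γ ^ 2 * C₂), ?_⟩
  filter_upwards [hP, Real.tendsto_log_atTop.eventually_ge_atTop 1, (tendsto_rpow_atTop hδ).eventually_ge_atTop (2 : ℝ), eventually_gt_atTop (0 : ℝ)]
    with T hP hL hTδ hT0
  have hL0 : 0 < Real.log T := by linarith
  obtain ⟨a, ha⟩ : ∃ a, a = γ / Real.log T := ⟨_, rfl⟩
  have hM2 := (hM (T ^ δ) hTδ).2.1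
  have hlog : Real.log (T ^ δ) ≤ Real.log T := by
    rw [Real.log_rpow hT0]
    nlinarith
  have hlog0 : 0 ≤ Real.log (T ^ δ) := Real.log_nonneg (by linarith)
  have hM3 : ∑ p ∈ (Finset.Icc 1 ⌊T ^ δ⌋₊).filter Nat.Prime, Real.log p ^ 2 / p ≤ C₂ * Real.log T ^ 2 := by
    refine hM2.trans (mul_le_mul_of_nonneg_left (pow_le_pow_left₀ hlog0 hlog 2) (by linarith))
  have key : ∀ p ∈ (Finset.Icc 1 ⌊T ^ δ⌋₊).filter Nat.Prime,
      β ^ 2 * (4 * (1 / (p : ℝ)) - 4 * a ^ 2 * (Real.log p ^ 2 / p)) ≤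
        ‖∑ j : Fin 2, (((fun _ => β) j : ℝ) : ℂ) * (p : ℂ) ^ (-((((![γ / Real.log T, -(γ / Real.log T)] : Fin 2 → ℝ) j : ℝ) : ℂ) * I))‖ ^ 2 / (p : ℝ) := by
    intro p hp
    rw [Finset.mem_filter, Finset.mem_Icc] at hp
    have hp0 : 0 < p := hp.1.1
    have hpR : (0 : ℝ) < p := by exact_mod_cast hp0
    have hpc : (p : ℂ) ≠ 0 := by exact_mod_cast hp0.ne'
    obtain ⟨x, hx⟩ : ∃ x, x = a * Real.log p := ⟨_, rfl⟩
    have e1 : (p : ℂ) ^ (-(((a : ℝ) : ℂ) * I)) = cexp (((-x : ℝ) : ℂ) * I) := by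
      rw [Complex.cpow_def_of_ne_zero hpc, ← Complex.natCast_log, hx]
      congr 1
      push_cast
      ring
    have e2 : (p : ℂ) ^ (-(((-a : ℝ) : ℂ) * I)) = cexp (((x : ℝ) : ℂ) * I) := by
      rw [Complex.cpow_def_of_ne_zero hpc, ← Complex.natCast_log, hx]
      congr 1
      push_cast
      ring
    rw [Fin.sum_univ_two]
    simp only [Matrix.cons_val_zero, Matrix.cons_val_one]
    rw [← ha, e1, e2]
    have e3 : (β : ℂ) * cexp (((-x : ℝ) : ℂ) * I) + (β : ℂ) * cexp (((x : ℝ) : ℂ) * I) = ((β * (2 * Real.cos x) : ℝ) : ℂ) := by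
      rw [Complex.exp_mul_I, Complex.exp_mul_I]
      push_cast
      rw [Complex.cos_neg, Complex.sin_neg]
      ring
    rw [e3, Complex.norm_real, Real.norm_eq_abs, sq_abs]
    have h1 : 1 - x ^ 2 ≤ Real.cos x ^ 2 := by
      have h2 := Real.sin_sq_add_cos_sq x
      have h3 : Real.sin x ^ 2 ≤ x ^ 2 := by
        rw [← sq_abs (Real.sin x), ← sq_abs x]
        exact pow_le_pow_left₀ (abs_nonneg _) Real.abs_sin_le_abs 2
      linarith
    have h4 : β ^ 2 * (4 * (1 / (p : ℝ)) - 4 * a ^ 2 * (Real.log p ^ 2 / p)) = β ^ 2 * (4 * (1 - x ^ 2)) / p := by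
      rw [hx]; field_simp
    rw [h4]
    refine div_le_div_of_nonneg_right ?_ hpR.le
    have h5 := mul_le_mul_of_nonneg_left h1 (show 0 ≤ 4 * β ^ 2 by positivity)
    nlinarith
  refine le_trans ?_ (Finset.sum_le_sum key)
  have e4 : ∑ p ∈ (Finset.Icc 1 ⌊T ^ δ⌋₊).filter Nat.Prime, β ^ 2 * (4 * (1 / (p : ℝ)) - 4 * a ^ 2 * (Real.log p ^ 2 / p)) =
      β ^ 2 * (4 * (∑ p ∈ (Finset.Icc 1 ⌊T ^ δ⌋₊).filter Nat.Prime, (1 : ℝ) / p) -
        4 * a ^ 2 * ∑ p ∈ (Finset.Icc 1 ⌊T ^ δ⌋₊).filter Nat.Prime, Real.log p ^ 2 / p) := by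
    rw [← Finset.mul_sum, Finset.sum_sub_distrib, Finset.mul_sum, Finset.mul_sum]
  rw [e4]
  have h5 : 4 * a ^ 2 * (∑ p ∈ (Finset.Icc 1 ⌊T ^ δ⌋₊).filter Nat.Prime, Real.log p ^ 2 / p) ≤ 4 * γ ^ 2 * C₂ := by
    have h6 := mul_le_mul_of_nonneg_left hM3 (show 0 ≤ 4 * a ^ 2 by positivity)
    refine h6.trans (le_of_eq ?_)
    rw [ha]
    field_simp
  have h7 : β ^ 2 * (4 * (Real.log (Real.log T) - C₁) - 4 * γ ^ 2 * C₂) ≤
      β ^ 2 * (4 * (∑ p ∈ (Finset.Icc 1 ⌊T ^ δ⌋₊).filter Nat.Prime, (1 : ℝ) / p) -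
        4 * a ^ 2 * ∑ p ∈ (Finset.Icc 1 ⌊T ^ δ⌋₊).filter Nat.Prime, Real.log p ^ 2 / p) := by
    refine mul_le_mul_of_nonneg_left ?_ (sq_nonneg β)
    linarith
  nlinarith

lemma count_N (a b : ℝ) : count a b = Pool.Agent.Q32.Idx.N a b := by
  unfold count Pool.Agent.Q32.Idx.N
  have e : {s : ℂ | (riemannZeta s = 0 ∧ 0 < s.re ∧ s.re < 1) ∧ a < s.im ∧ s.im ≤ b} = Pool.Agent.Q32.Idx.zeros a b := by
    ext s
    exact ⟨fun h => ⟨h.1.1, h.1.2.1, h.1.2.2, h.2.1, h.2.2⟩, fun h => ⟨⟨h.1, h.2.1, h.2.2.1⟩, h.2.2.2.1, h.2.2.2.2⟩⟩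
  rw [e]
  rfl

lemma integrand_Fk (k : ℕ) (α T t : ℝ) : integrand k α T t = Pool.Agent.H4.SC.Fk k (α / Real.log T) t := by
  unfold integrand Pool.Agent.H4.SC.Fk zt
  have e1 : (1 / 2 + I * α / Real.log T + I * t : ℂ) = 1 / 2 + ((t + α / Real.log T : ℝ) : ℂ) * I := by
    push_cast
    ring
  have e2 : (1 / 2 + I * α / Real.log T - I * t : ℂ) = (starRingEnd ℂ) (1 / 2 + ((t - α / Real.log T : ℝ) : ℂ) * I) := by
    apply Complex.ext
    · simp
    · simp
  rw [e1, e2, riemannZeta_conj, mul_pow]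

/-- the argument of the integrand -/
lemma arg_int (k : ℕ) {α : ℝ} (hα : 1 < α) : ∃ C T₀ : ℝ, ∀ T : ℝ, T₀ ≤ T → ∀ t ∈ Set.Icc T (2 * T),
    ‖integrand k α T t - ((modulus α T t ^ k : ℝ) : ℂ) * cexp (I * (k * Real.sqrt (Real.log α) * excess α T t))‖ ≤
      C / Real.log T * modulus α T t ^ k := by
  obtain ⟨T₀, hT₀⟩ := eventually_atTop.1 ((eventually_ge_atTop (400 : ℝ)).and (Real.tendsto_log_atTop.eventually_ge_atTop (α + 1)))
  refine ⟨7 * k * α, T₀, fun T hT t ht => ?_⟩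
  obtain ⟨h1, h2⟩ := hT₀ T hT
  have hs : Real.sqrt (Real.log α) ≠ 0 := (Real.sqrt_pos.2 (Real.log_pos hα)).ne'
  have h3 := Fk_arg (k := k) h1 (by linarith : (0 : ℝ) ≤ α) h2 ht.1 ht.2
  rw [← integrand_Fk, ← count_N] at h3
  have e : (I * (k * Real.sqrt (Real.log α) * excess α T t) : ℂ) =
      I * (k * (Real.pi * count (t - α / Real.log T) (t + α / Real.log T) - α)) := by
    have e1 : Real.sqrt (Real.log α) * excess α T t = Real.pi * count (t - α / Real.log T) (t + α / Real.log T) - α := by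
      unfold excess
      field_simp
    have e2 := congrArg (fun x : ℝ => (x : ℂ)) e1
    push_cast at e2
    rw [mul_assoc (k : ℂ), e2]
  rw [e]
  exact h3

/-- **The mesoscopic Gaussian law relative to every Dirichlet polynomial.** -/
theorem result :
    -- 0. the argument of the integrand
    (∀ (k : ℕ) (α : ℝ), 1 < α → ∃ C T₀ : ℝ, ∀ T : ℝ, T₀ ≤ T → ∀ t ∈ Set.Icc T (2 * T),
      ‖integrand k α T t - ((modulus α T t ^ k : ℝ) : ℂ) * cexp (I * (k * Real.sqrt (Real.log α) * excess α T t))‖ ≤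
        C / Real.log T * modulus α T t ^ k) ∧
    -- 1. the law
    (∀ J J' : Set ℝ, J.OrdConnected → J'.OrdConnected → ∀ ε : ℝ, 0 < ε → ∃ α₀ : ℝ, ∀ α : ℝ, α₀ ≤ α → ∃ θ T₀ : ℝ, 0 < θ ∧ ∀ T : ℝ, T₀ ≤ T →
      ∀ (M : ℕ) (b : ℕ → ℂ), (M : ℝ) ≤ T ^ θ →
        |(∫ t in event J J' α T, ‖D M b t‖ ^ 2) - Phi J * Phi J' * ∫ t in Set.Icc T (2 * T), ‖D M b t‖ ^ 2| ≤
          ε * ∫ t in Set.Icc T (2 * T), ‖D M b t‖ ^ 2) ∧
    -- 2. moments of the shifted values over the events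
    (∀ J J' : Set ℝ, J.OrdConnected → J'.OrdConnected → J.Nontrivial → J'.Nontrivial → ∃ α₀ : ℝ, ∀ α : ℝ, α₀ ≤ α → ∀ γ p : ℝ,
      ∃ κ T₀ : ℝ, 0 < κ ∧ ∀ T : ℝ, T₀ ≤ T → ENNReal.ofReal (κ * T * Real.log T ^ (p ^ 2)) ≤
        ∫⁻ t in event J J' α T, ENNReal.ofReal (modulus γ T t ^ p)) := by
  refine ⟨fun k α hα => arg_int k hα, fun J J' hJ hJ' ε hε => ?_, fun J J' hJ hJ' hn hn' => ?_⟩
  · obtain ⟨A₀, hA₀, h⟩ := law1 hJ hJ' (ε := ε / 4) (by positivity)
    refine ⟨A₀, fun α hα => ?_⟩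
    obtain ⟨θ, hθ0, hθ1, h⟩ := h α hα
    obtain ⟨η, hη⟩ : ∃ η, η = min (1 / 2) (ε / 4) := ⟨_, rfl⟩
    have hη0 : 0 < η := by rw [hη]; positivity
    have hη1 : η ≤ 1 / 2 := by rw [hη]; exact min_le_left _ _
    have hη3 : η ≤ ε / 4 := by rw [hη]; exact min_le_right _ _
    obtain ⟨T₀, hT₀⟩ := eventually_atTop.1 ((h.and (mv_rel η hη0)).and (eventually_ge_atTop (16 : ℝ)))
    refine ⟨θ, T₀, hθ0, fun T hT M b hM => ?_⟩
    obtain ⟨⟨g1, g2⟩, g3⟩ := hT₀ T hT
    have hT1 : (1 : ℝ) ≤ T := by linarith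
    replace g1 := g1 M b hM
    replace g2 := g2 M (hM.trans (Real.rpow_le_rpow_of_exponent_le hT1 hθ1)) b
    obtain ⟨X, hX⟩ : ∃ X, X = T * N2 M b := ⟨_, rfl⟩
    have hX0 : 0 ≤ X := by rw [hX]; exact mul_nonneg (by linarith) (N2_nn M b)
    rw [← hX] at g1 g2
    obtain ⟨G, hG⟩ : ∃ G, G = Phi J * Phi J' := ⟨_, rfl⟩
    have hG0 : 0 ≤ G := by rw [hG]; exact mul_nonneg measureReal_nonneg measureReal_nonneg
    have hG1 : G ≤ 1 := by rw [hG]; exact mul_le_one₀ measureReal_le_one measureReal_nonneg measureReal_le_one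
    have e1 : ∫ t in Set.Icc T (2 * T), ‖D M b t‖ ^ 2 = ∫ t in T..(2 * T), ‖dp M b t‖ ^ 2 := by
      rw [intervalIntegral.integral_of_le (by linarith), integral_Icc_eq_integral_Ioc]
      rfl
    rw [e1, ← hG]
    rw [← hG] at g1
    obtain ⟨m, hm⟩ : ∃ m, m = ∫ t in T..(2 * T), ‖dp M b t‖ ^ 2 := ⟨_, rfl⟩
    rw [← hm] at g2 ⊢
    obtain ⟨P, hP⟩ : ∃ P, P = ∫ t in event J J' α T, ‖D M b t‖ ^ 2 := ⟨_, rfl⟩
    rw [← hP] at g1 ⊢
    have g4 := abs_le.1 g2
    have h5 : η * X ≤ 1 / 2 * X := mul_le_mul_of_nonneg_right hη1 hX0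
    have h6 : η * X ≤ ε / 4 * X := mul_le_mul_of_nonneg_right hη3 hX0
    have h7 : X ≤ 2 * m := by linarith [g4.1]
    have e2 : P - G * m = (P - G * X) + G * (X - m) := by ring
    rw [e2]
    refine (abs_add_le _ _).trans ?_
    have h8 : |G * (X - m)| ≤ ε / 4 * X := by
      rw [abs_mul, abs_of_nonneg hG0, abs_sub_comm]
      have : G * |m - X| ≤ 1 * (η * X) := mul_le_mul hG1 g2 (abs_nonneg _) zero_le_one
      linarith
    have h9 := mul_le_mul_of_nonneg_left h7 (show 0 ≤ ε / 2 by positivity)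
    linarith
  · obtain ⟨G, hG⟩ : ∃ G, G = Phi J * Phi J' := ⟨_, rfl⟩
    have hG0 : 0 < G := by rw [hG]; exact mul_pos (Phi_pos hJ hn) (Phi_pos hJ' hn')
    obtain ⟨A₀, hA₀, h⟩ := law1 hJ hJ' (ε := G / 2) (by positivity)
    refine ⟨A₀, fun α hα γ p => ?_⟩
    obtain ⟨θ, hθ0, hθ1, h⟩ := h α hα
    rw [← hG] at h
    obtain ⟨δ, κ, hδ, hδ1, hκ, hl⟩ := lbt (A := max |p| 1) (le_max_right _ _) (half_pos hG0) hθ0
    obtain ⟨C, hC⟩ := two_shift hδ (by linarith) γ (p / 2)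
    obtain ⟨T₀, hT₀⟩ := eventually_atTop.1 (((h.and hl).and hC).and ((eventually_ge_atTop (16 : ℝ)).and
      ((Real.tendsto_log_atTop.eventually_ge_atTop (2 * α + 1)).and (Real.tendsto_log_atTop.eventually_ge_atTop (|γ| + 1)))))
    refine ⟨κ * Real.exp (-C), T₀, by positivity, fun T hT => ?_⟩
    obtain ⟨⟨⟨g1, g2⟩, g3⟩, hT16, hL, hLγ⟩ := hT₀ T hT
    have hα0 : 0 ≤ α := by linarith
    have hL1 : 1 ≤ Real.log T := by linarith
    have hL0 : 0 < Real.log T := by linarith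
    have hSm := event_meas hJ hJ' hT16 hα0 hL
    have hST : event J J' α T ⊆ Set.Icc T (2 * T) := fun t ht => ht.1
    obtain ⟨S, hS⟩ : ∃ S, S = event J J' α T := ⟨_, rfl⟩
    rw [← hS] at hSm hST g1 ⊢
    have hγ : |γ / Real.log T| ≤ T / 2 := by
      rw [abs_div, abs_of_pos hL0]
      have : |γ| / Real.log T ≤ 1 := by rw [div_le_one hL0]; linarith
      linarith
    have h3 := g2 (S.indicator fun _ => (1 : ℝ)) (measurable_const.indicator hSm)
      (fun t => Set.indicator_nonneg (fun _ _ => zero_le_one) t)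
      (fun t => by
        by_cases ht : t ∈ S
        · rw [Set.indicator_of_mem ht]
        · rw [Set.indicator_of_notMem ht]; exact zero_le_one)
      (fun M hM b => by
        rw [int_ind (by linarith) hSm hST]
        have h4 := (abs_le.1 (g1 M b hM)).1
        have h5 : ∫ t in S, ‖D M b t‖ ^ 2 = ∫ t in S, ‖dp M b t‖ ^ 2 := rfl
        rw [h5] at h4
        linarith)
      2 (fun _ => p / 2) (![γ / Real.log T, -(γ / Real.log T)]) (by
        rw [Fin.sum_univ_two, abs_div, abs_two]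
        have := le_max_left |p| 1
        linarith) (by
        intro j
        fin_cases j
        · exact hγ
        · show |-(γ / Real.log T)| ≤ T / 2
          rw [abs_neg]; exact hγ)
    refine le_trans (ENNReal.ofReal_le_ofReal ?_) (h3.trans ?_)
    · have e1 : Real.log T ^ (p ^ 2) = Real.exp (p ^ 2 * Real.log (Real.log T)) := by
        rw [Real.rpow_def_of_pos hL0, mul_comm]
      have e2 : 4 * (p / 2) ^ 2 = p ^ 2 := by ring
      rw [e2] at g3
      calc κ * Real.exp (-C) * T * Real.log T ^ (p ^ 2) = κ * T * Real.exp (p ^ 2 * Real.log (Real.log T) - C) := by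
            rw [e1, sub_eq_add_neg, Real.exp_add]
            ring
        _ ≤ _ := mul_le_mul_of_nonneg_left (Real.exp_le_exp.mpr g3) (mul_nonneg hκ.le (by linarith))
    · rw [← lintegral_indicator measurableSet_Icc, ← lintegral_indicator hSm]
      refine lintegral_mono fun t => ?_
      by_cases ht : t ∈ S
      · rw [Set.indicator_of_mem (hST ht), Set.indicator_of_mem ht, Set.indicator_of_mem ht, one_mul]
        refine ENNReal.ofReal_le_ofReal (le_of_eq ?_)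
        unfold modulus
        rw [Fin.prod_univ_two, Real.mul_rpow (norm_nonneg _) (norm_nonneg _)]
        simp only [Matrix.cons_val_zero, Matrix.cons_val_one]
        have e3 : 2 * (p / 2) = p := by ring
        rw [e3, ← sub_eq_add_neg]
        rfl
      · rw [Set.indicator_of_notMem ht (f := fun t => ENNReal.ofReal (modulus γ T t ^ p))]
        by_cases ht2 : t ∈ Set.Icc T (2 * T)
        · rw [Set.indicator_of_mem ht2, Set.indicator_of_notMem ht, zero_mul, ENNReal.ofReal_zero]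
        · rw [Set.indicator_of_notMem ht2]

end

end Pool.Agent.Results.MP_069854_nt.MesoscopicLaw
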